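import Pool.Agent.MNU.StmtsU

/-!
# Squad MNU (MP_160b6c_nt), row LBU: the local inequality at the places of a number field
(copy of Helper87_MNT/LOB)
-/

set_option autoImplicit false

namespace Pool.Agent.MNU.H92

open Polynomial NumberField
open Pool.Agent.MNT

theorem card_QR (g : ℕ) : (QR g).card = 2 * g + 1 := by
  have h : QR g = (Finset.univ : Finset (Fin (2 * g + 1))).map Function.Embedding.inl := by
    ext p
    rcases p with p | p <;> simp [QR]
  rw [h, Finset.card_map, Finset.card_univ, Fintype.card_fin]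

theorem card_QI (g : ℕ) : Fintype.card (QI g) = 2 * g + 1 + (2 * g + 9) := by
  simp [QI]

theorem qu_vC : QU vC (Real.log 2) := by
  refine ⟨Real.log_nonneg one_le_two, fun a b => ?_⟩
  rw [Real.exp_log two_pos]
  show ‖a + b‖ ≤ 2 * max ‖a‖ ‖b‖
  have h1 := norm_add_le a b
  have h2 := le_max_left ‖a‖ ‖b‖
  have h3 := le_max_right ‖a‖ ‖b‖
  linarith

theorem lbu (hLOU : LouStmt) (hOTE : OteStmt) (hNBE : NbeStmt) (hOTN : OtnStmt) : LbuStmt := by
  intro g hg
  refine ⟨?_, ?_⟩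
  · intro E _ v hv z hz e N U W c he hsol p q p' q' hpq hpq'
    have hQU : QU v 0 := by
      refine ⟨le_refl _, fun a b => ?_⟩
      rw [Real.exp_zero, one_mul]
      exact hv a b
    have hG : ∀ Λ : Lam (QI g), Λ.Rep (dis v z) ((Fintype.card (QI g) : ℝ) * 0) →
        ∀ d ∈ Λ.V, Λ.Grd (QR g) d → ∃ p ∈ d, ∀ x, x ∉ QR g →
          Harm v (U x).roots (z x) (z p) (Real.exp (-Λ.lev d)) 0 := by
      intro Λ hΛ d hd hgrd
      rw [mul_zero] at hΛ
      obtain ⟨p, hp, hharm⟩ := hOTN E v hv (QI g) (QR g) z hz Λ hΛ e he d hd hgrd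
      exact ⟨p, hp, fun x hx => hharm (z x) (N x) (U x) (W x) (c x) (hsol x hx).1 (hsol x hx).2⟩
    have h := hLOU g hg E v 0 0 hQU (le_refl _) (QI g) (QR g) (card_QR g) (card_QI g) z hz e N U W c
      he hsol hG p q p' q' hpq hpq'
    simpa using h
  · intro z hz e N U W c he hsol p q p' q' hpq hpq'
    set e₂ : ℝ := Real.log 128 + |(Fintype.card (QI g) : ℝ) * Real.log 2| +
      (Fintype.card (QI g) : ℝ) * Real.log (4 * Fintype.card (QI g)) with he₂
    have hcard : ((Fintype.card (QI g) : ℕ) : ℝ) = 4 * (g : ℝ) + 10 := by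
      rw [card_QI]; push_cast; ring
    have he₂0 : 0 ≤ e₂ := by
      rw [he₂, hcard]
      have a1 : 0 ≤ Real.log 128 := Real.log_nonneg (by norm_num)
      have a2 : (0 : ℝ) ≤ g := Nat.cast_nonneg g
      have a3 : 0 ≤ Real.log (4 * (4 * (g : ℝ) + 10)) := Real.log_nonneg (by linarith)
      have a4 := abs_nonneg ((4 * (g : ℝ) + 10) * Real.log 2)
      have a5 : 0 ≤ (4 * (g : ℝ) + 10) * Real.log (4 * (4 * (g : ℝ) + 10)) :=
        mul_nonneg (by linarith) a3
      linarith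
    have hG : ∀ Λ : Lam (QI g), Λ.Rep (dis vC z) ((Fintype.card (QI g) : ℝ) * Real.log 2) →
        ∀ d ∈ Λ.V, Λ.Grd (QR g) d → ∃ p ∈ d, ∀ x, x ∉ QR g →
          Harm vC (U x).roots (z x) (z p) (Real.exp (-Λ.lev d)) e₂ := by
      intro Λ hΛ d hd hgrd
      obtain ⟨p, hp, hharm⟩ := hOTE ((Fintype.card (QI g) : ℝ) * Real.log 2) (QI g) (QR g) z hz Λ hΛ
        e he d hd hgrd
      exact ⟨p, hp, fun x hx => hharm (z x) (N x) (U x) (W x) (c x) (hsol x hx)⟩
    have h := hLOU g hg ℂ vC (Real.log 2) e₂ qu_vC he₂0 (QI g) (QR g) (card_QR g) (card_QI g) z hz e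
      N U W c he (fun x hx => ⟨hsol x hx, IsAlgClosed.splits _⟩) hG p q p' q' hpq hpq'
    have hb := hNBE g hg
    have hb' : EM g * (Real.log 2 + e₂) ≤ (4 * (g : ℝ) + 10) ^ 6 := by
      rw [he₂, hcard]
      exact hb
    refine h.trans ?_
    have h' : ∀ A B C D : ℝ, C ≤ D → A - B + C ≤ A - B + D := fun A B C D hCD => by linarith
    exact h' _ _ _ _ hb'

end Pool.Agent.MNU.H92
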